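import Pool.Agent.Helper2_Pak.StmtsT
import Pool.Agent.Helper2_Pak.G1
import Pool.Agent.Helper55_Pack.T5

/-!
# PAK1 module T7: the parameter is large enough
-/

namespace Pool.Agent.Helper2_Pak.H81

open Pool.Agent.Helper2_Pak Pool.Agent.Helper2_Pack Pool.Agent.Helper2_Pak.H2

theorem K_le (G : Lay) : G.K ≤ G.M * (G.N + 6) := by
  rw [card_eq]
  have h1 : ∑ c : Fin G.M, G.top c ≤ ∑ c : Fin G.M, (G.N + 5) :=
    Finset.sum_le_sum fun c _ => top_le G c
  have h2 : Fintype.card {c : Fin G.M // (G.kd c).isL = true} ≤ Fintype.card (Fin G.M) :=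
    Fintype.card_subtype_le _
  simp only [Finset.sum_const, Finset.card_univ, Fintype.card_fin, smul_eq_mul] at h1 h2
  have : G.M * (G.N + 6) = G.M * (G.N + 5) + G.M := by ring
  omega

/-- MODULE T7 -/
theorem t7 : T7Stmt := by
  intro S _
  have hl := Pool.Agent.Helper55_Pack.enc_length S
  set l := S.enc.length with hldef
  have hM : (lay S).M ≤ 7 * (4 * l + 3) := by
    show 7 * (2 * nT S + 3) ≤ 7 * (4 * l + 3)
    unfold nT
    omega
  have hN : (lay S).N + 6 ≤ 4 * l + 16 := by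
    show 2 * (nR S) + 1 + 6 ≤ 4 * l + 16
    unfold nR
    omega
  have hn : (lay S).n + 1 ≤ 2 * l + 2 := by
    show nR S + 1 ≤ 2 * l + 2
    unfold nR
    omega
  constructor
  · have h1 := K_le (lay S)
    have h2 : (lay S).M * ((lay S).N + 6) ≤ (7 * (4 * l + 3)) * (4 * l + 16) :=
      Nat.mul_le_mul hM hN
    unfold mOf1
    have h3 : 32 * (7 * (4 * l + 3)) * (4 * l + 16) = 32 * ((7 * (4 * l + 3)) * (4 * l + 16)) := by
      ring
    omega
  · have hT : (lay S).T ≤ 256 * (l + 8) ^ 2 := by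
      unfold Lay.T
      have h1 : 4 * ((lay S).M + 1) * ((lay S).n + 1) ≤ 4 * (7 * (4 * l + 3) + 1) * (2 * l + 2) :=
        Nat.mul_le_mul (by omega) hn
      have h2 : 4 * (7 * (4 * l + 3) + 1) * (2 * l + 2) + 8 ≤ 256 * (l + 8) ^ 2 := by
        nlinarith
      omega
    have h1 : 2 ^ 11 * (lay S).T ≤ 2 ^ 19 * (l + 8) ^ 2 := by
      calc 2 ^ 11 * (lay S).T ≤ 2 ^ 11 * (256 * (l + 8) ^ 2) := Nat.mul_le_mul_left _ hT
        _ = 2 ^ 19 * (l + 8) ^ 2 := by ring
    have h2 : (l + 8) ^ 2 < 2 ^ ((l + 8) ^ 2) := Nat.lt_two_pow_self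
    calc 2 ^ 11 * (lay S).T ≤ 2 ^ 19 * (l + 8) ^ 2 := h1
      _ < 2 ^ 19 * 2 ^ ((l + 8) ^ 2) := by
          apply Nat.mul_lt_mul_of_pos_left h2
          positivity
      _ = 2 ^ (19 + (l + 8) ^ 2) := by rw [pow_add]
      _ ≤ 2 ^ (mOf1 l) := by
          apply Nat.pow_le_pow_right (by norm_num)
          unfold mOf1
          omega

end Pool.Agent.Helper2_Pak.H81
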